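import Pool.Agent.UL7.Stmts

/-!
# Squad UL7 (MP_c7c9bf_co), row DHS: half of the difference body
-/

set_option autoImplicit false

namespace Pool.Agent.UL7.H81

open MeasureTheory Set Pool.Agent.UL3 Pool.Agent.UL4 Pool.Agent.UL5 Pool.Agent.UL7

/-- the interior of an image under a homeomorphism -/
theorem int_image {X Y : Set (ℝ × ℝ)} (e : (ℝ × ℝ) ≃ₜ (ℝ × ℝ)) (hX : (interior X).Nonempty)
    (h : ∀ x ∈ X, e x ∈ Y) : (interior Y).Nonempty := by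
  obtain ⟨x, hx⟩ := hX
  refine ⟨e x, mem_interior.2 ⟨e '' interior X, ?_, e.isOpenMap _ isOpen_interior,
    mem_image_of_mem _ hx⟩⟩
  rintro _ ⟨z, hz, rfl⟩
  exact h z (interior_subset hz)

theorem pc_smul {X : Set (ℝ × ℝ)} {c : ℝ} (hc : 0 < c) (h : PC X) :
    PC ((fun x => c • x) '' X) := by
  refine ⟨h.cpt.image (continuous_const_smul c), ?_, ?_⟩
  · rintro _ ⟨x, hx, rfl⟩ _ ⟨y, hy, rfl⟩ s t hs ht hst
    refine ⟨s • x + t • y, h.cvx hx hy hs ht hst, ?_⟩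
    show c • (s • x + t • y) = s • (c • x) + t • (c • y)
    rw [smul_add, smul_comm c s, smul_comm c t]
  · exact int_image (Homeomorph.smulOfNeZero c hc.ne') h.int fun x hx => ⟨x, hx, rfl⟩

theorem pc_dh {X : Set (ℝ × ℝ)} (h : PC X) : PC (dh X) := by
  have hX : X.Nonempty := h.int.mono interior_subset
  obtain ⟨b, hb⟩ := hX
  refine ⟨?_, ?_, ?_⟩
  · have h1 : dh X = (fun p : (ℝ × ℝ) × (ℝ × ℝ) => (1 / 2 : ℝ) • (p.1 - p.2)) '' (X ×ˢ X) := by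
      ext p
      constructor
      · rintro ⟨x, hx, y, hy, rfl⟩
        exact ⟨(x, y), ⟨hx, hy⟩, rfl⟩
      · rintro ⟨⟨x, y⟩, ⟨hx, hy⟩, rfl⟩
        exact ⟨x, hx, y, hy, rfl⟩
    rw [h1]
    have h2 : Continuous fun p : (ℝ × ℝ) × (ℝ × ℝ) => (1 / 2 : ℝ) • (p.1 - p.2) := by
      fun_prop
    exact (h.cpt.prod h.cpt).image h2
  · rintro _ ⟨x, hx, y, hy, rfl⟩ _ ⟨x', hx', y', hy', rfl⟩ s t hs ht hst
    refine ⟨s • x + t • x', h.cvx hx hx' hs ht hst, s • y + t • y', h.cvx hy hy' hs ht hst, ?_⟩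
    module
  · refine int_image ((Homeomorph.subRight b).trans
      (Homeomorph.smulOfNeZero (1 / 2 : ℝ) (by norm_num))) h.int fun x hx => ⟨x, hx, b, hb, rfl⟩

/-- **DHS** -/
theorem dhs : DhsStmt := by
  refine ⟨fun X h => ?_, fun M h => ?_, fun X v => ?_, fun X c hc => ⟨?_, pc_smul hc⟩⟩
  · have h1 := pc_dh h
    refine ⟨⟨h1.cpt, h1.cvx, ?_, h1.int⟩, h1⟩
    rintro _ ⟨x, hx, y, hy, rfl⟩
    exact ⟨y, hy, x, hx, by module⟩
  · refine ⟨?_, ⟨h.cpt, h.cvx, h.int⟩⟩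
    ext p
    constructor
    · rintro ⟨x, hx, y, hy, rfl⟩
      have h1 := h.cvx hx (h.sym y hy) (by norm_num : (0 : ℝ) ≤ 1 / 2)
        (by norm_num : (0 : ℝ) ≤ 1 / 2) (by norm_num)
      have h2 : (1 / 2 : ℝ) • (x - y) = (1 / 2 : ℝ) • x + (1 / 2 : ℝ) • (-y) := by module
      rw [h2]
      exact h1
    · intro hp
      exact ⟨p, hp, -p, h.sym p hp, by module⟩
  · ext p
    constructor
    · rintro ⟨_, ⟨x, hx, s, hs, rfl⟩, _, ⟨y, hy, t, ht, rfl⟩, rfl⟩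
      refine ⟨(1 / 2 : ℝ) • (x - y), ⟨x, hx, y, hy, rfl⟩, (s - t) / 2, ?_, by module⟩
      rw [abs_le] at hs ht ⊢
      constructor <;> linarith
    · rintro ⟨_, ⟨x, hx, y, hy, rfl⟩, t, ht, rfl⟩
      refine ⟨x + t • v, ⟨x, hx, t, ht, rfl⟩, y + (-t) • v, ⟨y, hy, -t, ?_, rfl⟩, by module⟩
      rwa [abs_neg]
  · ext p
    constructor
    · rintro ⟨_, ⟨x, hx, rfl⟩, _, ⟨y, hy, rfl⟩, rfl⟩
      refine ⟨(1 / 2 : ℝ) • (x - y), ⟨x, hx, y, hy, rfl⟩, ?_⟩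
      show c • ((1 / 2 : ℝ) • (x - y)) = (1 / 2 : ℝ) • (c • x - c • y)
      module
    · rintro ⟨_, ⟨x, hx, y, hy, rfl⟩, rfl⟩
      refine ⟨c • x, ⟨x, hx, rfl⟩, c • y, ⟨y, hy, rfl⟩, ?_⟩
      show c • ((1 / 2 : ℝ) • (x - y)) = (1 / 2 : ℝ) • (c • x - c • y)
      module

end Pool.Agent.UL7.H81
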