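import Pool.Agent.UL7.Stmts

/-!
# Squad UL7 (MP_c7c9bf_co), row ZAP: approximation by zonotopes
-/

set_option autoImplicit false

namespace Pool.Agent.UL7.H81

open MeasureTheory Set Pool.Agent.UL3 Pool.Agent.UL4 Pool.Agent.UL5 Pool.Agent.UL7

theorem anti_int {P : ℝ → ℝ × ℝ} (h : ∀ φ, P (φ + Real.pi) = -P φ) (φ : ℝ) (n : ℤ) :
    P (φ + n * Real.pi) = P φ ∨ P (φ + n * Real.pi) = -P φ := by
  induction n using Int.induction_on with
  | zero =>
    left
    norm_num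
  | succ n ih =>
    have e : φ + (((n : ℤ) + 1 : ℤ) : ℝ) * Real.pi = (φ + ((n : ℤ) : ℝ) * Real.pi) + Real.pi := by
      push_cast
      ring
    rw [e, h]
    rcases ih with ih | ih
    · right
      rw [ih]
    · left
      rw [ih, neg_neg]
  | pred n ih =>
    have e : φ + ((-(n : ℤ) : ℤ) : ℝ) * Real.pi =
        (φ + ((-(n : ℤ) - 1 : ℤ) : ℝ) * Real.pi) + Real.pi := by
      push_cast
      ring
    rw [e, h] at ih
    rcases ih with ih | ih
    · right
      rw [← ih, neg_neg]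
    · left
      exact neg_injective ih

/-- **ZAP** -/
theorem zap (bdp : BdpStmt) (zin : ZinStmt) (zvx : ZvxStmt) (zli : ZliStmt) : ZapStmt := by
  intro M hM ε hε hε1
  obtain ⟨P, hP⟩ := bdp M hM
  obtain ⟨c, hc, hball⟩ := Metric.mem_nhds_iff.1 (mem_interior_iff_mem_nhds.1 hM.zero_mem)
  have hcε : 0 < ε * (c / 2) := by positivity
  obtain ⟨δ, hδ, hunif⟩ := Metric.uniformContinuousOn_iff.1
    (isCompact_Icc.uniformContinuousOn_of_continuous
      (hP.cont.continuousOn (s := Icc 0 Real.pi))) (ε * (c / 2)) hcε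
  obtain ⟨N, hN⟩ := exists_nat_gt (Real.pi / δ)
  have hπ := Real.pi_pos
  have hN0 : (0 : ℝ) < N := lt_trans (by positivity) hN
  have hNpos : 0 < N := by exact_mod_cast hN0
  have hNδ : Real.pi / N < δ := by
    rw [div_lt_iff₀ hδ] at hN
    rw [div_lt_iff₀ hN0]
    linarith
  have hin : zon {0} (edg P N) ⊆ M := zin M P hM hP N
  obtain ⟨hZc, hZconv, hZ0, hZs, -⟩ := zli.2.1 (edg P N)
  have claim : ∀ x ∈ M, ∃ z ∈ zon {0} (edg P N), ∃ m ∈ M, x = z + ε • m := by
    intro x hx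
    obtain ⟨φ, t, ht0, ht1, rfl⟩ := hP.all x hx
    obtain ⟨q, hq⟩ : ∃ q : ℤ, φ + q * Real.pi ∈ Ico 0 Real.pi := by
      obtain ⟨q, hq, -⟩ := existsUnique_add_zsmul_mem_Ico hπ φ 0
      refine ⟨q, ?_⟩
      have hq' : φ + q • Real.pi ∈ Ico 0 (0 + Real.pi) := hq
      rw [zero_add, zsmul_eq_mul] at hq'
      exact hq'
    set ψ : ℝ := φ + q * Real.pi with hψ
    set k : ℕ := ⌊ψ * N / Real.pi⌋₊ with hk
    have hy0 : 0 ≤ ψ * N / Real.pi := by
      have := hq.1
      positivity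
    have hk1 : (k : ℝ) ≤ ψ * N / Real.pi := Nat.floor_le hy0
    have hk2 : ψ * N / Real.pi < k + 1 := Nat.lt_floor_add_one _
    have hkN : k ≤ N := by
      have h1 : ψ * N / Real.pi ≤ N := by
        rw [div_le_iff₀ hπ]
        nlinarith [hq.2]
      exact_mod_cast hk1.trans h1
    have hkψ1 : Real.pi * k / N ≤ ψ := by
      rw [le_div_iff₀ hπ] at hk1
      rw [div_le_iff₀ hN0]
      linarith
    have hkψ2 : ψ < Real.pi * k / N + Real.pi / N := by
      rw [div_lt_iff₀ hπ] at hk2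
      rw [← add_div, lt_div_iff₀ hN0]
      linarith
    have hk0 : 0 ≤ Real.pi * k / N := by positivity
    have hdist : dist (P ψ) (P (Real.pi * k / N)) < ε * (c / 2) := by
      refine hunif ψ ⟨hq.1, hq.2.le⟩ _ ⟨hk0, hkψ1.trans hq.2.le⟩ ?_
      rw [Real.dist_eq, abs_of_nonneg (by linarith)]
      linarith
    have hPk : P (Real.pi * (k : ℝ) / N) ∈ zon {0} (edg P N) := zvx P hP.anti N k hNpos hkN
    have htk : ∀ s : ℝ, |s| ≤ 1 → s • P (Real.pi * (k : ℝ) / N) ∈ zon {0} (edg P N) := by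
      intro s hs
      have hsc : ∀ w ∈ zon {0} (edg P N), ∀ r : ℝ, 0 ≤ r → r ≤ 1 →
          r • w ∈ zon {0} (edg P N) := by
        intro w hw r hr0 hr1
        have := hZconv hw hZ0 hr0 (by linarith : 0 ≤ 1 - r) (by ring)
        rwa [smul_zero, add_zero] at this
      rcases le_total 0 s with h | h
      · exact hsc _ hPk s h (by rwa [abs_of_nonneg h] at hs)
      · have h2 := hsc _ (hZs _ hPk) (-s) (by linarith) (by rwa [abs_of_nonpos h] at hs)
        rwa [smul_neg, neg_smul, neg_neg] at h2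
    obtain ⟨s, hs, hsx⟩ : ∃ s : ℝ, |s| ≤ 1 ∧ t • P φ = s • P ψ := by
      rcases anti_int hP.anti φ q with h | h
      · exact ⟨t, by rwa [abs_of_nonneg ht0], by rw [hψ, h]⟩
      · exact ⟨-t, by rwa [abs_neg, abs_of_nonneg ht0], by rw [hψ, h, smul_neg, neg_smul, neg_neg]⟩
    refine ⟨s • P (Real.pi * (k : ℝ) / N), htk s hs,
      ε⁻¹ • (s • (P ψ - P (Real.pi * (k : ℝ) / N))), ?_, ?_⟩
    · apply hball
      rw [Metric.mem_ball, dist_zero_right, norm_smul, norm_smul, Real.norm_eq_abs,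
        Real.norm_eq_abs, abs_of_pos (inv_pos.2 hε), ← dist_eq_norm]
      calc ε⁻¹ * (|s| * dist (P ψ) (P (Real.pi * k / N))) ≤
            ε⁻¹ * (1 * (ε * (c / 2))) := by
              refine mul_le_mul_of_nonneg_left (mul_le_mul hs hdist.le dist_nonneg zero_le_one)
                (inv_pos.2 hε).le
        _ = c / 2 := by
              field_simp
        _ < c := by linarith
    · rw [hsx, smul_smul, mul_inv_cancel₀ hε.ne', one_smul, smul_sub]
      abel
  refine ⟨edg P N, hin, fun x hx => ?_⟩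
  by_contra hnot
  obtain ⟨g, s, hg1, hg2⟩ := geometric_hahn_banach_closed_point hZconv hZc.isClosed hnot
  obtain ⟨x₀, hx₀, hmax⟩ := hM.cpt.exists_isMaxOn ⟨x, hx⟩ g.continuous.continuousOn
  obtain ⟨z₀, hz₀, m₀, hm₀, hxz⟩ := claim x₀ hx₀
  have e1 : g x₀ = g z₀ + ε * g m₀ := by
    rw [hxz, map_add, map_smul, smul_eq_mul]
  have e2 := hg1 z₀ hz₀
  have e3 : g m₀ ≤ g x₀ := hmax hm₀
  have e4 : g x ≤ g x₀ := hmax hx
  have e5 : g ((1 - ε) • x) = (1 - ε) * g x := by rw [map_smul, smul_eq_mul]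
  rw [e5] at hg2
  nlinarith

end Pool.Agent.UL7.H81
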